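import Pool.Agent.T2H28.OD.Rows
import Pool.Agent.T2H28.BF.Alg

/-! The averages of a system of values over all number fields with boundedly many orbits. -/

set_option autoImplicit false

namespace Pool.Agent.T2H28.OD

open Complex Filter Topology ComplexConjugate NumberField IsDedekindDomain Asymptotics
  Pool.Agent.W401.Cheb Pool.Agent.W540.BE Pool.Agent.W353.L1 Pool.Agent.W353.SP Pool.Agent.W353.FB
open Pool.Agent.H126V.Taub Pool.Agent.H126V.FC
open Pool.Agent.W353.NF (act fixn fixn_inv fixn_le)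
open Pool.Agent.W353.AT (MRep Irr Sim fixedDim mult IsArtin exists_common)
open Pool.Agent.W353.TD (ch rank)
open Pool.Agent.X288.L2 (pairOrbits fixn_self)
open Pool.Agent.T2H28.BF (SqLe spectral_gen mn_le hconv_ultra orbits_mono fixn_bot)

section
variable {K : Type} [Field K] [NumberField K] {W : Type} [AddCommGroup W] [Module ℚ W]
  [FiniteDimensional ℚ W] {ρ : Representation ℚ (GK K) W} {P : LocalValue K} {N : ℕ}
  {σ : HeightOneSpectrum (𝓞 K) → GK K} {t : HeightOneSpectrum (𝓞 K) → ℝ}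

/-- natural averages over `F` -/
theorem lim_nat {F : Type} [Field F] [NumberField F] [Algebra K F] (hu : Uniq P) (hσ : ∀ v, IsFrob v (σ v))
    (ht : Bd t) (htv : ∀ᶠ v in cofinite, ValueAt P v (t v))
    {R : Finset (HeightOneSpectrum (𝓞 F))} {b : HeightOneSpectrum (𝓞 F) → ℝ} (hb : IsSystem P R b) :
    Tendsto (fun X : ℕ => average R b X - EN K X (fun v => t v * fixn K F (σ v))) atTop (𝓝 0) := by
  obtain ⟨a, ha, -, hba, hcomp⟩ := exists_a hu htv hb
  have h6 := EN_FT σ hσ ht ha hcomp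
  have h7 := (LA_EN' R ha hba).add h6
  rw [add_zero] at h7
  refine h7.congr fun X => ?_
  rw [average_eq]
  ring

/-- analytic averages over `F` -/
theorem lim_an {F : Type} [Field F] [NumberField F] [Algebra K F] (hu : Uniq P) (hσ : ∀ v, IsFrob v (σ v))
    (ht : Bd t) (htv : ∀ᶠ v in cofinite, ValueAt P v (t v))
    {R : Finset (HeightOneSpectrum (𝓞 F))} {b : HeightOneSpectrum (𝓞 F) → ℝ} (hb : IsSystem P R b) :
    Tendsto (fun s : ℝ => residue R b s - EA K s (fun v => t v * fixn K F (σ v))) (𝓝[>] 1) (𝓝 0) := by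
  obtain ⟨a, ha, hbR, hba, hcomp⟩ := exists_a hu htv hb
  have h6 := EN_FT σ hσ ht ha hcomp
  have hg : Bd fun v => t v * (fixn K F (σ v) : ℝ) := ht.mul (bd_fixn σ)
  have h7 := DS_diff hbR ha hg hba h6
  refine h7.congr fun s => ?_
  rw [residue_eq]

variable {ι : Type} {l : Filter ι} {E : ι → (HeightOneSpectrum (𝓞 K) → ℝ) → ℝ}

/-- the truncated function -/
noncomputable def TC (ρ : Representation ℚ (GK K) W) (s : ℝ) (σ : HeightOneSpectrum (𝓞 K) → GK K)
    (t : HeightOneSpectrum (𝓞 K) → ℝ) (v : HeightOneSpectrum (𝓞 K)) : ℝ := cut s (t v - ch ρ (σ v)⁻¹)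

theorem abs_TC {s : ℕ} (v : HeightOneSpectrum (𝓞 K)) : |TC ρ s σ t v| ≤ s := abs_cut (Nat.cast_nonneg s) _

/-- the part of the truncated function -/
theorem split (h : Mn l E) (ht : Bd t) {s : ℕ}
    (hs : ∀ η : ℝ, 0 < η → ∀ᶠ v in cofinite, |t v - ch ρ (σ v)⁻¹| ≤ s + η)
    {g : HeightOneSpectrum (𝓞 K) → ℝ} (hg : Bd g) {b : ℝ}
    (hb : Hs l E (fun v => ch ρ (σ v)⁻¹ * g v) b) :
    Tendsto (fun i => E i (fun v => TC ρ s σ t v * g v) - (E i (fun v => t v * g v) - b)) l (𝓝 0) := by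
  have hT : Bd (TC ρ s σ t) := ⟨s, fun v => abs_TC v⟩
  have hψ : Hs l E (fun v => t v * g v +
      ((-1) * (TC ρ s σ t v * g v) + (-1) * (ch ρ (σ v)⁻¹ * g v))) 0 := by
    refine hsSmall h ((ht.mul hg).add (((Bd.const (-1)).mul (hT.mul hg)).add
      ((Bd.const (-1)).mul hb.1))) fun η hη => ?_
    obtain ⟨G, hG⟩ := hg
    have hG0 : 0 < |G| + 1 := by positivity
    filter_upwards [hs (η / (|G| + 1)) (by positivity)] with v hv
    have h6 := cut_sub (Nat.cast_nonneg s) (by positivity : 0 ≤ η / (|G| + 1)) hv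
    have e : t v * g v + ((-1) * (TC ρ s σ t v * g v) + (-1) * (ch ρ (σ v)⁻¹ * g v)) =
        ((t v - ch ρ (σ v)⁻¹) - cut s (t v - ch ρ (σ v)⁻¹)) * g v := by
      unfold TC
      ring
    rw [e, abs_mul]
    calc _ ≤ η / (|G| + 1) * (|G| + 1) := by
          refine mul_le_mul h6 ?_ (abs_nonneg _) (by positivity)
          exact ((hG v).trans (le_abs_self G)).trans (by linarith)
      _ = η := div_mul_cancel₀ _ hG0.ne'
  have h1 : ∀ᶠ i in l, E i (fun v => t v * g v +
      ((-1) * (TC ρ s σ t v * g v) + (-1) * (ch ρ (σ v)⁻¹ * g v))) =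
      E i (fun v => t v * g v) + ((-1) * E i (fun v => TC ρ s σ t v * g v) +
        (-1) * E i (fun v => ch ρ (σ v)⁻¹ * g v)) := by
    filter_upwards [h.add (fun v => t v * g v) _ (ht.mul hg) (((Bd.const (-1)).mul (hT.mul hg)).add
      ((Bd.const (-1)).mul hb.1)), h.add _ _ ((Bd.const (-1)).mul (hT.mul hg))
        ((Bd.const (-1)).mul hb.1)] with i h2 h3
    rw [h2, h3, h.smul, h.smul]
  have h2 := (hψ.2.congr' h1).neg.sub (hb.2.sub_const b)
  rw [neg_zero, sub_self, sub_zero] at h2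
  refine h2.congr fun i => ?_
  ring

/-- the trace of the algebraic part over `K` -/
theorem bot_mean (h : Mn l E) (hρ : ∃ U : Subgroup (GK K), IsOpen (U : Set (GK K)) ∧ ∀ u ∈ U, ρ u = 1)
    (hσ : ∀ v, IsFrob v (σ v)) : Hs l E (fun v => ch ρ (σ v)⁻¹ * 1)
      (rank ρ (⊥ : IntermediateField K (AlgebraicClosure K))) := by
  have hnf : NumberField (⊥ : IntermediateField K (AlgebraicClosure K)) := NumberField.of_module_finite K _
  have h6 := h.fixMean ρ hρ (⊥ : IntermediateField K (AlgebraicClosure K)).val σ hσ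
  have hr : rank ρ (⊥ : IntermediateField K (AlgebraicClosure K)) =
      Module.finrank ℚ (Pool.Agent.W353.TD.inv ρ
        (⊥ : IntermediateField K (AlgebraicClosure K)).val.fieldRange.fixingSubgroup) := by
    rw [Pool.Agent.W353.TD.inv_eq, IntermediateField.fieldRange_val]
    rfl
  rw [hr]
  refine h6.congr (fun v => ?_) rfl
  rw [fixn_bot, Nat.cast_one]

theorem fix_mean' (h : Mn l E) (hρ : ∃ U : Subgroup (GK K), IsOpen (U : Set (GK K)) ∧ ∀ u ∈ U, ρ u = 1)
    (hσ : ∀ v, IsFrob v (σ v)) (F : IntermediateField K (AlgebraicClosure K)) [NumberField F] :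
    Hs l E (fun v => ch ρ (σ v)⁻¹ * fixn K F (σ v)) (rank ρ F) := by
  have h6 := h.fixMean ρ hρ F.val σ hσ
  have hr : rank ρ F = Module.finrank ℚ (Pool.Agent.W353.TD.inv ρ F.val.fieldRange.fixingSubgroup) := by
    rw [Pool.Agent.W353.TD.inv_eq, IntermediateField.fieldRange_val]
    rfl
  rw [hr]
  exact h6

/-- **Independent families.** -/
theorem rows_abs (h : Mn l E) (ht : Bd t)
    (hρ : ∃ U : Subgroup (GK K), IsOpen (U : Set (GK K)) ∧ ∀ u ∈ U, ρ u = 1) {s : ℕ}
    (hσ : ∀ v, IsFrob v (σ v))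
    (hs : ∀ η : ℝ, 0 < η → ∀ᶠ v in cofinite, |t v - ch ρ (σ v)⁻¹| ≤ s + η)
    {κ : Type} [Fintype κ] (F : κ → IntermediateField K (AlgebraicClosure K)) [∀ k, NumberField (F k)]
    (hr : ∀ k, 2 ≤ pairOrbits K (F k)) (hd : ∀ k k', k ≠ k' → Independent K (F k) (F k'))
    (A : κ → ι → ℝ) (A₀ : ι → ℝ)
    (hA : ∀ k, Tendsto (fun i => A k i - E i (fun v => t v * fixn K (F k) (σ v))) l (𝓝 0))
    (hA₀ : Tendsto (fun i => A₀ i - E i (fun v => t v * fixn K K (σ v))) l (𝓝 0)) {η : ℝ} (hη : 0 < η) :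
    ∀ᶠ i in l, ∑ k, ((A k i - rank ρ (F k)) -
      (A₀ i - rank ρ (⊥ : IntermediateField K (AlgebraicClosure K)))) ^ 2 /
        ((pairOrbits K (F k) : ℝ) - 1) ≤ (s : ℝ) ^ 2 + η := by
  classical
  refine rowsMn h (T := TC ρ s σ t) (s := s) (fun v => abs_TC v)
    (fun k v => (fixn K (F k) (σ v) : ℝ) - 1) (fun k => (pairOrbits K (F k) : ℝ) - 1) (fun k => ?_)
    (fun k k' => ?_) (fun k => ?_) _ (fun k => ?_) hη
  · have h1 : (2 : ℝ) ≤ pairOrbits K (F k) := by exact_mod_cast hr k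
    linarith
  · by_cases hk : k = k'
    · subst hk
      rw [if_pos rfl]
      refine (hs_same hσ h (F k) 1).congr (fun v => rfl) ?_
      ring
    · rw [if_neg hk]
      exact hs_disj hσ h (hd k k' hk)
  · obtain ⟨B, hB⟩ := bd_fixn (K := K) (F := F k) σ
    exact ⟨|B| + 1, fun v => (abs_sub _ _).trans (add_le_add ((hB v).trans (le_abs_self B))
      (by rw [abs_one]))⟩
  · have e0 : (fun v => TC ρ s σ t v * ((fixn K (F k) (σ v) : ℝ) - 1)) = fun v =>
        TC ρ s σ t v * fixn K (F k) (σ v) + (-1) * (TC ρ s σ t v * 1) := by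
      funext v
      ring
    have hT : Bd (TC ρ s σ t) := ⟨s, fun v => abs_TC v⟩
    have h1 := split h ht hs (bd_fixn (K := K) (F := F k) σ) (fix_mean' h hρ hσ (F k))
    have h2 := split h ht hs (Bd.const 1) (bot_mean h hρ hσ)
    have h3 : ∀ᶠ i in l, E i (fun v => TC ρ s σ t v * ((fixn K (F k) (σ v) : ℝ) - 1)) =
        E i (fun v => TC ρ s σ t v * fixn K (F k) (σ v)) + (-1) * E i (fun v => TC ρ s σ t v * 1) := by
      filter_upwards [h.add (fun v => TC ρ s σ t v * fixn K (F k) (σ v)) _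
        (hT.mul (bd_fixn (K := K) (F := F k) σ)) ((Bd.const (-1)).mul (hT.mul (Bd.const 1)))] with i h4
      rw [e0, h4, h.smul]
    have e1 : (fun v => t v * (fixn K K (σ v) : ℝ)) = fun v => t v * 1 := by
      funext v
      rw [fixn_self, Nat.cast_one]
    rw [e1] at hA₀
    have h4 := (h1.sub h2).sub ((hA k).sub hA₀)
    rw [sub_self] at h4
    refine h4.congr' ?_
    filter_upwards [h3] with i h5
    rw [h5]
    ring

/-- **The governing field.** -/
theorem gov_abs [l.NeBot] (h : Mn l E) (ht : Bd t)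
    (hρ : ∃ U : Subgroup (GK K), IsOpen (U : Set (GK K)) ∧ ∀ u ∈ U, ρ u = 1) {s : ℕ}
    (hσ : ∀ v, IsFrob v (σ v))
    (hs : ∀ η : ℝ, 0 < η → ∀ᶠ v in cofinite, |t v - ch ρ (σ v)⁻¹| ≤ s + η) :
    ∃ δ : IntermediateField K (AlgebraicClosure K) → ℝ,
      (∀ (F : IntermediateField K (AlgebraicClosure K)) [NumberField F] (A : ι → ℝ) (x : ℝ),
        Tendsto (fun i => A i - E i (fun v => t v * fixn K F (σ v))) l (𝓝 0) → Tendsto A l (𝓝 x) →
        x - rank ρ F = δ F) ∧
      (∀ (A : ι → ℝ) (x : ℝ), Tendsto (fun i => A i - E i (fun v => t v * fixn K K (σ v))) l (𝓝 0) →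
        Tendsto A l (𝓝 x) → x - rank ρ (⊥ : IntermediateField K (AlgebraicClosure K)) = δ ⊥) ∧
      ∀ (c : ℕ) (η : ℝ), 0 < η → ∃ M : IntermediateField K (AlgebraicClosure K),
        FiniteDimensional K M ∧ IsGalois K M ∧
        ∀ (F : IntermediateField K (AlgebraicClosure K)) [NumberField F],
          pairOrbits K F ≤ c → |δ F - δ (F ⊓ M)| < η := by
  classical
  set U : Ultrafilter ι := Ultrafilter.of l with hU
  have hUl : (U : Filter ι) ≤ l := Ultrafilter.of_le l
  have hMU : Mn (U : Filter ι) E := mn_le h hUl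
  have hT : ∀ v, |TC ρ s σ t v| ≤ (s : ℝ) := fun v => abs_TC v
  obtain ⟨zF, hz, hgov⟩ := spectral_gen (sqLe (K := K)) hMU hσ (Nat.cast_nonneg s) hT
    (fun V hV f hf => by
      obtain ⟨B, hB⟩ := Pool.Agent.T2H28.BF.loc_bdd hV hf
      obtain ⟨B', hB'⟩ : Bd fun v => TC ρ s σ t v * f (σ v) :=
        Bd.mul ⟨s, hT⟩ ⟨B, fun v => hB (σ v)⟩
      obtain ⟨m, hm⟩ := ulim U (hMU.bound hB')
      exact ⟨m, ⟨B', hB'⟩, hm⟩)
  refine ⟨zF, fun F _ A x hA hx => ?_, fun A x hA hx => ?_, fun c η hη => ?_⟩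
  · have h1 := split h ht hs (bd_fixn (K := K) (F := F) σ) (fix_mean' h hρ hσ F)
    have h2 : Tendsto (fun i => E i (fun v => TC ρ s σ t v * fixn K F (σ v))) l (𝓝 (x - rank ρ F)) := by
      have h3 := (h1.sub hA).add (hx.sub_const (rank ρ F : ℝ))
      rw [sub_self, zero_add] at h3
      refine h3.congr fun i => ?_
      ring
    exact tendsto_nhds_unique (h2.mono_left hUl) (hz F).2
  · have hnf : NumberField (⊥ : IntermediateField K (AlgebraicClosure K)) :=
      NumberField.of_module_finite K _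
    have h1 := split h ht hs (Bd.const 1) (bot_mean h hρ hσ)
    have e1 : (fun v => t v * (fixn K K (σ v) : ℝ)) = fun v => t v * 1 := by
      funext v
      rw [fixn_self, Nat.cast_one]
    rw [e1] at hA
    have h2 : Tendsto (fun i => E i (fun v => TC ρ s σ t v * 1)) l
        (𝓝 (x - rank ρ (⊥ : IntermediateField K (AlgebraicClosure K)))) := by
      have h3 := (h1.sub hA).add
        (hx.sub_const (rank ρ (⊥ : IntermediateField K (AlgebraicClosure K)) : ℝ))
      rw [sub_self, zero_add] at h3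
      refine h3.congr fun i => ?_
      ring
    have h4 := (hz ⊥).2
    have e2 : (fun v => TC ρ s σ t v * (fixn K (⊥ : IntermediateField K (AlgebraicClosure K)) (σ v) : ℝ)) =
        fun v => TC ρ s σ t v * 1 := by
      funext v
      rw [fixn_bot, Nat.cast_one]
    rw [e2] at h4
    exact tendsto_nhds_unique (h2.mono_left hUl) h4
  · obtain ⟨M, h1, h2, h3⟩ := hgov c η hη
    exact ⟨M, h1, h2, fun F _ hF => h3 F (by exact_mod_cast hF)⟩

end

end Pool.Agent.T2H28.OD
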