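import Pool.Agent.T2H28.OD.Fib
import Pool.Agent.T2H28.BF.Cols

/-! The main theorems for the systems of values. -/

set_option autoImplicit false

namespace Pool.Agent.T2H28.OD

open Complex Filter Topology ComplexConjugate NumberField IsDedekindDomain
  Pool.Agent.W401.Cheb Pool.Agent.W540.BE Pool.Agent.W353.L1 Pool.Agent.W353.SP Pool.Agent.W353.FB
open Pool.Agent.W353.TD (ch rank)
open Pool.Agent.X288.L2 (pairOrbits)
open Pool.Agent.T2H28.BF (fin_below card_le)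

section
variable {K : Type} [Field K] [NumberField K] {W : Type} [AddCommGroup W] [Module ℚ W]
  [FiniteDimensional ℚ W] {ρ : Representation ℚ (GK K) W} {P : LocalValue K} {N : ℕ}

/-- independent families, averages -/
theorem main_rows (hu : Uniq P) (hP : IsPartOf P N ρ) {κ : Type} [Fintype κ]
    (F : κ → IntermediateField K (AlgebraicClosure K)) [∀ k, NumberField (F k)]
    {R : ∀ k, Finset (HeightOneSpectrum (𝓞 (F k)))} {b : ∀ k, HeightOneSpectrum (𝓞 (F k)) → ℝ}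
    {R₀ : Finset (HeightOneSpectrum (𝓞 K))} {b₀ : HeightOneSpectrum (𝓞 K) → ℝ}
    (hb : ∀ k, IsSystem P (R k) (b k)) (hb₀ : IsSystem P R₀ b₀)
    (hr : ∀ k, 2 ≤ pairOrbits K (F k)) (hd : ∀ k k', k ≠ k' → Independent K (F k) (F k'))
    {η : ℝ} (hη : 0 < η) :
    (∀ᶠ s : ℝ in 𝓝[>] 1, ∑ k, ((residue (R k) (b k) s - rank ρ (F k)) -
      (residue R₀ b₀ s - rank ρ (⊥ : IntermediateField K (AlgebraicClosure K)))) ^ 2 /
        ((pairOrbits K (F k) : ℝ) - 1) ≤ ((N - Module.finrank ℚ W : ℕ) : ℝ) ^ 2 + η) ∧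
    ∀ᶠ T : ℕ in atTop, ∑ k, ((average (R k) (b k) T - rank ρ (F k)) -
      (average R₀ b₀ T - rank ρ (⊥ : IntermediateField K (AlgebraicClosure K)))) ^ 2 /
        ((pairOrbits K (F k) : ℝ) - 1) ≤ ((N - Module.finrank ℚ W : ℕ) : ℝ) ^ 2 + η := by
  choose σ hσ using exists_isFrob (F := K)
  obtain ⟨t, ht, htv, hts⟩ := exists_t hP σ hσ
  exact ⟨rows_abs (mnA K) ht hP.1 hσ hts F hr hd (fun k => residue (R k) (b k)) (residue R₀ b₀)
      (fun k => lim_an hu hσ ht htv (hb k)) (lim_an hu hσ ht htv hb₀) hη,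
    rows_abs (mnN K) ht hP.1 hσ hts F hr hd (fun k => average (R k) (b k)) (average R₀ b₀)
      (fun k => lim_nat hu hσ ht htv (hb k)) (lim_nat hu hσ ht htv hb₀) hη⟩

/-- independent families with residues -/
theorem main_count (hu : Uniq P) (hP : IsPartOf P N ρ) {κ : Type}
    (F : κ → IntermediateField K (AlgebraicClosure K)) [∀ k, NumberField (F k)]
    {R : ∀ k, Finset (HeightOneSpectrum (𝓞 (F k)))} {b : ∀ k, HeightOneSpectrum (𝓞 (F k)) → ℝ}
    {R₀ : Finset (HeightOneSpectrum (𝓞 K))} {b₀ : HeightOneSpectrum (𝓞 K) → ℝ}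
    (hb : ∀ k, IsSystem P (R k) (b k)) (hb₀ : IsSystem P R₀ b₀) {c : ℕ}
    (hr : ∀ k, 2 ≤ pairOrbits K (F k) ∧ pairOrbits K (F k) ≤ c)
    (hd : ∀ k k', k ≠ k' → Independent K (F k) (F k'))
    {x : κ → ℝ} {x₀ : ℝ} (hx : ∀ k, Tendsto (residue (R k) (b k)) (𝓝[>] 1) (𝓝 (x k)))
    (hx₀ : Tendsto (residue R₀ b₀) (𝓝[>] 1) (𝓝 x₀)) {η : ℝ} (hη : 0 < η) :
    {k | η ≤ |(x k - rank ρ (F k)) -
      (x₀ - rank ρ (⊥ : IntermediateField K (AlgebraicClosure K)))|}.Finite ∧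
    ({k | η ≤ |(x k - rank ρ (F k)) -
      (x₀ - rank ρ (⊥ : IntermediateField K (AlgebraicClosure K)))|}.ncard : ℝ) ≤
        ((N - Module.finrank ℚ W : ℕ) : ℝ) ^ 2 * ((c - 1 : ℕ) : ℝ) / η ^ 2 := by
  classical
  set s : ℝ := ((N - Module.finrank ℚ W : ℕ) : ℝ) with hs
  set d : κ → ℝ := fun k => (x k - rank ρ (F k)) -
      (x₀ - rank ρ (⊥ : IntermediateField K (AlgebraicClosure K))) with hdd
  have key : ∀ J : Finset κ, (∀ k ∈ J, k ∈ {k | η ≤ |d k|}) →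
      (J.card : ℝ) ≤ s ^ 2 * ((c - 1 : ℕ) : ℝ) / η ^ 2 := by
    intro J hJ
    have h1 : ∀ ε : ℝ, 0 < ε → ∀ᶠ u : ℝ in 𝓝[>] 1, ∑ k : J, ((residue (R k.1) (b k.1) u - rank ρ (F k.1)) -
      (residue R₀ b₀ u - rank ρ (⊥ : IntermediateField K (AlgebraicClosure K)))) ^ 2 /
        ((pairOrbits K (F k.1) : ℝ) - 1) ≤ s ^ 2 + ε := fun ε hε =>
      (main_rows hu hP (fun k : J => F k.1) (fun k => hb k.1) hb₀ (fun k => (hr k.1).1)
        (fun k k' hkk => hd k.1 k'.1 fun h => hkk (Subtype.ext h)) hε).1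
    have h2 : Tendsto (fun u : ℝ => ∑ k : J, ((residue (R k.1) (b k.1) u - rank ρ (F k.1)) -
      (residue R₀ b₀ u - rank ρ (⊥ : IntermediateField K (AlgebraicClosure K)))) ^ 2 /
        ((pairOrbits K (F k.1) : ℝ) - 1)) (𝓝[>] 1)
        (𝓝 (∑ k : J, d k.1 ^ 2 / ((pairOrbits K (F k.1) : ℝ) - 1))) :=
      tendsto_finsetSum _ fun k _ =>
        ((((hx k.1).sub_const _).sub (hx₀.sub_const _)).pow 2).div_const _
    have h3 : ∑ k : J, d k.1 ^ 2 / ((pairOrbits K (F k.1) : ℝ) - 1) ≤ s ^ 2 :=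
      le_of_forall_pos_le_add fun ε hε => le_of_tendsto h2 (h1 ε hε)
    rw [Finset.sum_coe_sort J (fun k => d k ^ 2 / ((pairOrbits K (F k) : ℝ) - 1))] at h3
    rcases J.eq_empty_or_nonempty with hJ0 | ⟨k0, hk0⟩
    · rw [hJ0, Finset.card_empty, Nat.cast_zero]
      positivity
    have hc2 : 2 ≤ c := (hr k0).1.trans (hr k0).2
    have hcR : (2 : ℝ) ≤ c := by exact_mod_cast hc2
    have h4 : ∀ k ∈ J, η ^ 2 / ((c : ℝ) - 1) ≤ d k ^ 2 / ((pairOrbits K (F k) : ℝ) - 1) := by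
      intro k hk
      have g1 : η ≤ |d k| := hJ k hk
      have g2 : η ^ 2 ≤ d k ^ 2 := by
        rw [← sq_abs (d k)]
        exact pow_le_pow_left₀ hη.le g1 2
      have g3 : (2 : ℝ) ≤ pairOrbits K (F k) := by exact_mod_cast (hr k).1
      have g4 : (pairOrbits K (F k) : ℝ) ≤ c := by exact_mod_cast (hr k).2
      exact div_le_div₀ (sq_nonneg _) g2 (by linarith) (by linarith)
    have h5 := (Finset.sum_le_sum h4).trans h3
    rw [Finset.sum_const, nsmul_eq_mul] at h5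
    have hc1 : 0 < (c : ℝ) - 1 := by linarith
    have hη2 : 0 < η ^ 2 := by positivity
    rw [le_div_iff₀ hη2]
    rw [← mul_div_assoc, div_le_iff₀ hc1] at h5
    have e : ((c - 1 : ℕ) : ℝ) = (c : ℝ) - 1 := by
      rw [Nat.cast_sub (by omega), Nat.cast_one]
    rw [e]
    exact h5
  have hB0 : 0 ≤ s ^ 2 * ((c - 1 : ℕ) : ℝ) / η ^ 2 := by positivity
  have h1 := card_le (s := {k | η ≤ |d k|}) (n := ⌊s ^ 2 * ((c - 1 : ℕ) : ℝ) / η ^ 2⌋₊) fun J hJ =>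
    Nat.le_floor (key J hJ)
  refine ⟨h1.1, ?_⟩
  exact (Nat.cast_le.2 h1.2).trans (Nat.floor_le hB0)

/-- the governing field and primitive fields -/
theorem main_gov (hu : Uniq P) (hP : IsPartOf P N ρ) (c : ℕ) {η : ℝ} (hη : 0 < η) :
    (∃ M : IntermediateField K (AlgebraicClosure K), FiniteDimensional K M ∧ IsGalois K M ∧
      ∀ (F F' : IntermediateField K (AlgebraicClosure K)) [NumberField F] [NumberField F'],
        F' = F ⊓ M → pairOrbits K F ≤ c →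
        ∀ (R : Finset (HeightOneSpectrum (𝓞 F))) (b : HeightOneSpectrum (𝓞 F) → ℝ)
          (R' : Finset (HeightOneSpectrum (𝓞 F'))) (b' : HeightOneSpectrum (𝓞 F') → ℝ),
        IsSystem P R b → IsSystem P R' b' → ∀ x x' : ℝ, Tendsto (residue R b) (𝓝[>] 1) (𝓝 x) →
          Tendsto (residue R' b') (𝓝[>] 1) (𝓝 x') →
          |(x - rank ρ F) - (x' - rank ρ F')| < η) ∧
    {F : IntermediateField K (AlgebraicClosure K) | ∃ _ : NumberField F,
      (∀ F' : IntermediateField K (AlgebraicClosure K), F' ≤ F → F' = ⊥ ∨ F' = F) ∧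
      pairOrbits K F ≤ c ∧
      ∃ (R : Finset (HeightOneSpectrum (𝓞 F))) (b : HeightOneSpectrum (𝓞 F) → ℝ)
        (R₀ : Finset (HeightOneSpectrum (𝓞 K))) (b₀ : HeightOneSpectrum (𝓞 K) → ℝ) (x x₀ : ℝ),
        IsSystem P R b ∧ IsSystem P R₀ b₀ ∧ Tendsto (residue R b) (𝓝[>] 1) (𝓝 x) ∧
        Tendsto (residue R₀ b₀) (𝓝[>] 1) (𝓝 x₀) ∧
        η ≤ |(x - rank ρ F) - (x₀ - rank ρ (⊥ : IntermediateField K (AlgebraicClosure K)))|}.Finite := by
  choose σ hσ using exists_isFrob (F := K)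
  obtain ⟨t, ht, htv, hts⟩ := exists_t hP σ hσ
  obtain ⟨δ, h1, h2, h3⟩ := gov_abs (mnA K) ht hP.1 hσ hts
  obtain ⟨M, hM1, hM2, hM3⟩ := h3 c η hη
  refine ⟨⟨M, hM1, hM2, fun F F' _ _ hF' hc R b R' b' hb hb' x x' hx hx' => ?_⟩, ?_⟩
  · have g1 := h1 F (residue R b) x (lim_an hu hσ ht htv hb) hx
    have g2 := h1 F' (residue R' b') x' (lim_an hu hσ ht htv hb') hx'
    rw [g1, g2, hF']
    exact hM3 F hc
  · refine (fin_below M hM1).subset ?_
    rintro F ⟨hnf, hp, hc, R, b, R₀, b₀, x, x₀, hb, hb₀, hx, hx₀, hge⟩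
    by_contra hle
    have hbot : F ⊓ M = ⊥ := by
      rcases hp (F ⊓ M) inf_le_left with h | h
      · exact h
      · exact absurd (inf_eq_left.1 h) hle
    have g1 := h1 F (residue R b) x (lim_an hu hσ ht htv hb) hx
    have g2 := h2 (residue R₀ b₀) x₀ (lim_an hu hσ ht htv hb₀) hx₀
    rw [g1, g2] at hge
    have g3 := hM3 F hc
    rw [hbot] at g3
    exact absurd hge (not_le.2 g3)

end

end Pool.Agent.T2H28.OD
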