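import Pool.Agent.T2H28.BF.Gov

/-! Means of the products of the numbers of fixed embeddings, for a general base field and general means. -/

set_option autoImplicit false

namespace Pool.Agent.T2H28.OD

open Complex Filter Topology ComplexConjugate NumberField IsDedekindDomain Asymptotics
  Pool.Agent.W401.Cheb Pool.Agent.W540.BE Pool.Agent.W353.L1 Pool.Agent.W353.NF Pool.Agent.W353.SP
open Pool.Agent.W353.AT (MRep Irr Sim fixedDim mult IsArtin exists_common)
open Pool.Agent.X288.L2 (Cls pairOrbits pairRel mean_fix mean_fix_orbits)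
open Pool.Agent.W353.EF (perm)
open Pool.Agent.TH322.BC

/-- Any two pairs of embeddings of `F` and `F'` over `K` in the algebraic closure are conjugate: the tensor product
of `F` and `F'` over `K` is a field. -/
def Independent (K F F' : Type) [Field K] [Field F] [Field F'] [Algebra K F] [Algebra K F'] : Prop :=
  ∀ (i i' : F →ₐ[K] AlgebraicClosure K) (j j' : F' →ₐ[K] AlgebraicClosure K),
    ∃ σ : Gal(AlgebraicClosure K/K), perm K F σ i = i' ∧ perm K F' σ j = j'

section
variable {K : Type} [Field K] [NumberField K]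
variable {F F' : Type} [Field F] [NumberField F] [Field F'] [NumberField F'] [Algebra K F] [Algebra K F']

theorem cls_fix (K F : Type) [Field K] [NumberField K] [Field F] [NumberField F] [Algebra K F] (δ : ℝ) :
    Cls (act K F).ker (fun g => (fixn K F g : ℝ) - δ) :=
  ⟨fun g u hu => by
      have : fixn K F (g * u) = fixn K F g := fixn_mul_ker K F g u hu
      rw [this], fun g ρ => by rw [fixn_conj], fun g => by rw [fixn_inv]⟩

theorem Cls.mono {U V : Subgroup (GK K)} (hUV : U ≤ V) {ψ : GK K → ℝ} (h : Cls V ψ) : Cls U ψ :=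
  ⟨fun g u hu => h.hU g u (hUV hu), h.hc, h.hi⟩

/-- the common kernel -/
noncomputable def UU (K F F' : Type) [Field K] [NumberField K] [Field F] [NumberField F] [Field F'] [NumberField F']
    [Algebra K F] [Algebra K F'] : Subgroup (GK K) := (act K F).ker ⊓ (act K F').ker

instance : (UU K F F').Normal := by
  unfold UU
  infer_instance

theorem UU_open (K F F' : Type) [Field K] [NumberField K] [Field F] [NumberField F] [Field F'] [NumberField F']
    [Algebra K F] [Algebra K F'] : IsOpen (UU K F F' : Set (GK K)) := by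
  have h : ((UU K F F' : Subgroup (GK K)) : Set (GK K)) =
      ((act K F).ker : Set (GK K)) ∩ ((act K F').ker : Set (GK K)) := rfl
  rw [h]
  exact (ker_act_open K F).inter (ker_act_open K F')

instance : Finite (GK K ⧸ UU K F F') := Subgroup.quotient_finite_of_isOpen _ (UU_open K F F')

instance : Finite (GK K ⧸ (act K F).ker) := Subgroup.quotient_finite_of_isOpen _ (ker_act_open K F)

theorem fix_ker (K F : Type) [Field K] [NumberField K] [Field F] [NumberField F] [Algebra K F] (g : GK K) :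
    ∀ u ∈ (act K F).ker, (fixn K F (g * u) : ℝ) = fixn K F g := fun u hu => by
  have : fixn K F (g * u) = fixn K F g := fixn_mul_ker K F g u hu
  rw [this]

theorem mean_left : avR (UU K F F') (fun q => (fixn K F q.out : ℝ)) = 1 := by
  rw [avR_mono (U := UU K F F') (V := (act K F).ker) inf_le_left (f := fun g => (fixn K F g : ℝ))
    (fun g => fix_ker K F g)]
  exact mean_fix

theorem mean_right : avR (UU K F F') (fun q => (fixn K F' q.out : ℝ)) = 1 := by
  rw [avR_mono (U := UU K F F') (V := (act K F').ker) inf_le_right (f := fun g => (fixn K F' g : ℝ))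
    (fun g => fix_ker K F' g)]
  exact mean_fix

theorem mean_prod (δ : ℝ) : avR (UU K F F') (fun q => ((fixn K F q.out : ℝ) - δ) * ((fixn K F' q.out : ℝ) - δ)) =
    avR (UU K F F') (fun q => (fixn K F q.out : ℝ) * (fixn K F' q.out : ℝ)) - 2 * δ + δ ^ 2 := by
  have e : (fun q : GK K ⧸ UU K F F' => ((fixn K F q.out : ℝ) - δ) * ((fixn K F' q.out : ℝ) - δ)) =
      fun q => (fixn K F q.out : ℝ) * (fixn K F' q.out : ℝ) + ((-δ) * (fixn K F q.out : ℝ) +
        ((-δ) * (fixn K F' q.out : ℝ) + δ ^ 2)) := by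
    funext q
    ring
  rw [e, avR_add, avR_add, avR_add, avR_const_mul, avR_const_mul, avR_one, mean_left, mean_right]
  ring

theorem mean_same : avR (UU K F F) (fun q => (fixn K F q.out : ℝ) * (fixn K F q.out : ℝ)) = pairOrbits K F := by
  have h := avR_mono (U := UU K F F) (V := (act K F).ker) inf_le_left
    (f := fun g => (fixn K F g : ℝ) * (fixn K F g : ℝ)) (fun g u hu => by
      simp only [fix_ker K F g u hu])
  rw [h]
  have h1 := mean_fix_orbits (K := K) (F := F)
  rw [← h1]
  congr 1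
  funext q
  ring

theorem mean_disj (h : Independent K F F') :
    avR (UU K F F') (fun q => (fixn K F q.out : ℝ) * (fixn K F' q.out : ℝ)) = 1 := by
  classical
  set Y := (F →ₐ[K] AlgebraicClosure K) with hY
  set Y' := (F' →ₐ[K] AlgebraicClosure K) with hY'
  set Φ : GK K →* Equiv.Perm Y × Equiv.Perm Y' := (act K F).prod (act K F') with hΦ
  have hker : UU K F F' = Φ.ker := by
    ext g
    rw [MonoidHom.mem_ker]
    constructor
    · rintro ⟨h1, h2⟩
      exact Prod.ext h1 h2
    · intro h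
      exact ⟨congrArg Prod.fst h, congrArg Prod.snd h⟩
  have hfinY : Finite Y := inferInstance
  have hfinY' : Finite Y' := inferInstance
  let G : Equiv.Perm Y × Equiv.Perm Y' → ℝ := fun z =>
    (Nat.card {y // z.1 y = y} : ℝ) * (Nat.card {y // z.2 y = y} : ℝ)
  have g1 := avR_ker Φ G
  have g2 : avR (UU K F F') (fun q => (fixn K F q.out : ℝ) * (fixn K F' q.out : ℝ)) =
      avR Φ.ker (fun q => G (Φ q.out)) := by
    rw [← hker]
    rfl
  rw [g2, g1]
  -- the action on the pairs
  let A : Φ.range →* Equiv.Perm (Y × Y') :=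
    { toFun := fun z => Equiv.prodCongr z.1.1 z.1.2
      map_one' := rfl
      map_mul' := fun _ _ => rfl }
  have hne : Nonempty (Y × Y') := ⟨((IsAlgClosed.lift : F →ₐ[K] AlgebraicClosure K),
    (IsAlgClosed.lift : F' →ₐ[K] AlgebraicClosure K))⟩
  have g3 := burnside (G := Φ.range) (Y := Y × Y') A (fun z w => by
    obtain ⟨σ, h1, h2⟩ := h z.1 w.1 z.2 w.2
    exact ⟨⟨Φ σ, ⟨σ, rfl⟩⟩, Prod.ext h1 h2⟩)
  have g4 : ∑ᶠ z : Φ.range, G z = ∑ᶠ z : Φ.range, ((Nat.card {y // A z y = y} : ℕ) : ℝ) := by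
    refine finsum_congr fun z => ?_
    have e1 : Nat.card {y // A z y = y} = Nat.card {y // z.1.1 y = y} * Nat.card {y // z.1.2 y = y} := by
      rw [← Nat.card_prod]
      refine Nat.card_congr
        { toFun := fun w => (⟨w.1.1, congrArg Prod.fst w.2⟩, ⟨w.1.2, congrArg Prod.snd w.2⟩)
          invFun := fun p => ⟨(p.1.1, p.2.1), Prod.ext p.1.2 p.2.2⟩
          left_inv := fun w => rfl
          right_inv := fun p => rfl }
    rw [e1, Nat.cast_mul]
  rw [g4, g3]
  have : (Nat.card Φ.range : ℝ) ≠ 0 := by exact_mod_cast Nat.card_pos.ne'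
  field_simp

variable {ι : Type} {l : Filter ι} {E : ι → (HeightOneSpectrum (𝓞 K) → ℝ) → ℝ}

/-- the mean of a class function -/
theorem hsCls (h : Mn l E) {U : Subgroup (GK K)} [U.Normal] (hU : IsOpen (U : Set (GK K))) {ψ : GK K → ℝ}
    (hψ : Cls U ψ) {σ : HeightOneSpectrum (𝓞 K) → GK K} (hσ : ∀ v, IsFrob v (σ v)) :
    Hs l E (fun v => ψ (σ v)) (avR U fun q => ψ q.out) := by
  have hfin : Finite (GK K ⧸ U) := Subgroup.quotient_finite_of_isOpen _ hU
  have hout : ∀ g : GK K, ψ (QuotientGroup.mk g : GK K ⧸ U).out = ψ g := by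
    intro g
    obtain ⟨u, hu⟩ := QuotientGroup.mk_out_eq_mul U g
    rw [hu, hψ.hU g u u.2]
  obtain ⟨M, hM0, hM⟩ := hψ.bdd
  refine ⟨⟨M, fun v => hM (σ v)⟩, ?_⟩
  have h1 := h.cheb U hU (fun q => ((ψ q.out : ℝ) : ℂ)) (fun a g => by
    have e : (g : GK K ⧸ U) * a * (g : GK K ⧸ U)⁻¹ = g * a * g⁻¹ := rfl
    congr 1
    obtain ⟨g', rfl⟩ := QuotientGroup.mk_surjective g
    obtain ⟨a', rfl⟩ := QuotientGroup.mk_surjective a
    have e2 : ((g' : GK K ⧸ U) * (a' : GK K ⧸ U) * (g' : GK K ⧸ U)⁻¹) = ((g' * a' * g'⁻¹ : GK K) : GK K ⧸ U) := rfl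
    rw [e2, hout, hout, hψ.hc]) (avR U fun q => ψ q.out) (avC_ofReal U _) σ hσ
  refine h1.congr fun i => ?_
  congr 1
  funext v
  rw [hout, Complex.ofReal_re]

variable {σ : HeightOneSpectrum (𝓞 K) → GK K} (hσ : ∀ v, IsFrob v (σ v))

include hσ in
theorem hs_pair (h : Mn l E) (F F' : Type) [Field F] [NumberField F] [Field F'] [NumberField F'] [Algebra K F]
    [Algebra K F'] (δ : ℝ) :
    Hs l E (fun v => ((fixn K F (σ v) : ℝ) - δ) * ((fixn K F' (σ v) : ℝ) - δ))
      (avR (UU K F F') (fun q => (fixn K F q.out : ℝ) * (fixn K F' q.out : ℝ)) - 2 * δ + δ ^ 2) := by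
  have h1 := hsCls h (UU_open K F F') ((Cls.mono inf_le_left (cls_fix K F δ) : Cls (UU K F F') _).mul
    (Cls.mono inf_le_right (cls_fix K F' δ) : Cls (UU K F F') _)) hσ
  rw [mean_prod] at h1
  exact h1

include hσ in
theorem hs_disj (h : Mn l E) (hd : Independent K F F') :
    Hs l E (fun v => ((fixn K F (σ v) : ℝ) - 1) * ((fixn K F' (σ v) : ℝ) - 1)) 0 := by
  have h1 := hs_pair hσ h F F' 1
  rw [mean_disj hd] at h1
  have e : (1 : ℝ) - 2 * 1 + 1 ^ 2 = 0 := by ring
  rwa [e] at h1

include hσ in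
theorem hs_same (h : Mn l E) (F : Type) [Field F] [NumberField F] [Algebra K F] (δ : ℝ) :
    Hs l E (fun v => ((fixn K F (σ v) : ℝ) - δ) * ((fixn K F (σ v) : ℝ) - δ))
      ((pairOrbits K F : ℝ) - 2 * δ + δ ^ 2) := by
  have h1 := hs_pair hσ h F F δ
  rwa [mean_same] at h1

end

end Pool.Agent.T2H28.OD
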