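import Pool.Agent.T2H28.OD.Mean
import Pool.Agent.W353.FB.Final

/-! Bessel's inequality for general means, and the governing field. -/

set_option autoImplicit false

namespace Pool.Agent.T2H28.OD

open Complex Filter Topology ComplexConjugate NumberField IsDedekindDomain Asymptotics
  Pool.Agent.W401.Cheb Pool.Agent.W540.BE Pool.Agent.W353.L1 Pool.Agent.W353.SP
open Pool.Agent.W353.NF (act fixn fixn_inv fixn_le)
open Pool.Agent.W353.AT (MRep Irr Sim fixedDim mult IsArtin exists_common)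
open Pool.Agent.X288.L2 (Cls pairOrbits pairRel)
open Pool.Agent.W353.EF (perm)
open Pool.Agent.T2H28.BF (SqLe spectral_gen mn_le hconv_ultra orbits_mono)

section
variable {K : Type} [Field K] [NumberField K]

/-- **The sum of the squares of the multiplicities** is the number of the orbits on the pairs of embeddings. -/
theorem sum_sq_orbits (F : IntermediateField K (AlgebraicClosure K)) [NumberField F]
    {L : List (MRep (GK K))} (hL : ∀ x ∈ L, Irr x)
    (hfix : ∀ g, (fixn K F g : ℂ) = (L.map fun x => x.2.character g).sum)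
    (hm : ∀ x, Irr x → mult L x = fixedDim x.2 F) {S : Finset (MRep (GK K))}
    (hS : ∀ p ∈ S, p ∈ L) (hS2 : ∀ p ∈ S, ∀ q ∈ S, p ≠ q → ¬ Sim p q)
    (hS3 : ∀ x ∈ L, ∃ p ∈ S, Sim x p) :
    ∑ p ∈ S, (fixedDim p.2 F : ℝ) ^ 2 = pairOrbits K F := by
  classical
  choose σ hσ using exists_isFrob (F := K)
  obtain ⟨U, hUn, hU, hρ⟩ := exists_common (κ := S) (n := fun k => k.1.1)
    (fun k => k.1.2) fun k => (hL k.1 (hS k.1 k.2)).1
  have hfin : Finite (GK K ⧸ U) := Subgroup.quotient_finite_of_isOpen U hU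
  have hM := mnD K
  have hre : ∀ g, ((fixn K F g : ℕ) : ℂ) = ∑ p ∈ S, (fixedDim p.2 F : ℂ) * p.2.character g := by
    intro g
    have h1 := list_fam (f := fun x : MRep (GK K) => (x.2.character g).re) (P := Irr)
      (fun x y _ _ hs => by simp only [hs.char]) (S := S) (fun p hp => hL p (hS p hp)) hS2 L hL hS3
    have h2 := list_fam (f := fun x : MRep (GK K) => (x.2.character g).im) (P := Irr)
      (fun x y _ _ hs => by simp only [hs.char]) (S := S) (fun p hp => hL p (hS p hp)) hS2 L hL hS3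
    have e1 : ∀ L' : List (MRep (GK K)), ((L'.map fun x : MRep (GK K) => x.2.character g).sum).re =
        (L'.map fun x : MRep (GK K) => (x.2.character g).re).sum := by
      intro L'
      induction L' with
      | nil => simp
      | cons x L' ih => simp [ih]
    have e2 : ∀ L' : List (MRep (GK K)), ((L'.map fun x : MRep (GK K) => x.2.character g).sum).im =
        (L'.map fun x : MRep (GK K) => (x.2.character g).im).sum := by
      intro L'
      induction L' with
      | nil => simp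
      | cons x L' ih => simp [ih]
    rw [hfix g]
    apply Complex.ext
    · rw [e1, h1, Complex.re_sum]
      refine Finset.sum_congr rfl fun p hp => ?_
      rw [hm p (hL p (hS p hp)), ← Complex.ofReal_natCast, Complex.re_ofReal_mul, mul_comm]
    · rw [e2, h2, Complex.im_sum]
      refine Finset.sum_congr rfl fun p hp => ?_
      rw [hm p (hL p (hS p hp)), ← Complex.ofReal_natCast, Complex.im_ofReal_mul, mul_comm]
  set g : HeightOneSpectrum (𝓞 K) → ℂ := fun v => ∑ k : S, (fixedDim k.1.2 F : ℂ) *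
    k.1.2.character (σ v)⁻¹ with hg
  have hgf : ∀ v, g v = ((fixn K F (σ v) : ℝ) : ℂ) := by
    intro v
    rw [hg]
    simp only
    rw [Finset.sum_coe_sort S (fun p => (fixedDim p.2 F : ℂ) * p.2.character (σ v)⁻¹), ← hre,
      fixn_inv, Complex.ofReal_natCast]
  have hgg : ∀ v, ‖g v‖ ^ 2 = ∑ k : S, ∑ k' : S, (fixedDim k.1.2 F : ℝ) * fixedDim k'.1.2 F *
      (k.1.2.character (σ v)⁻¹ * conj (k'.1.2.character (σ v)⁻¹)).re := by
    intro v
    have h1 : (‖g v‖ ^ 2 : ℝ) = (g v * conj (g v)).re := by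
      rw [Complex.mul_conj, Complex.normSq_eq_norm_sq, Complex.ofReal_re]
    rw [h1, hg]
    simp only
    rw [map_sum, Finset.sum_mul_sum, Complex.re_sum]
    refine Finset.sum_congr rfl fun k _ => ?_
    rw [Complex.re_sum]
    refine Finset.sum_congr rfl fun k' _ => ?_
    have h2 : (fixedDim k.1.2 F : ℂ) * k.1.2.character (σ v)⁻¹ *
        conj ((fixedDim k'.1.2 F : ℂ) * k'.1.2.character (σ v)⁻¹) =
        (((fixedDim k.1.2 F : ℝ) * fixedDim k'.1.2 F : ℝ) : ℂ) *
          (k.1.2.character (σ v)⁻¹ * conj (k'.1.2.character (σ v)⁻¹)) := by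
      rw [map_mul]
      have e : conj (fixedDim k'.1.2 F : ℂ) = (fixedDim k'.1.2 F : ℂ) := by
        rw [← Complex.ofReal_natCast, Complex.conj_ofReal]
      rw [e]
      push_cast
      ring
    rw [h2, Complex.re_ofReal_mul]
  have hmean : Hs (𝓝[>] 0) (ED K) (fun v => ‖g v‖ ^ 2) (∑ p ∈ S, (fixedDim p.2 F : ℝ) ^ 2) := by
    have h1 := hM.hsSum Finset.univ fun (k : S) _ => hM.hsSum Finset.univ fun (k' : S) _ =>
      hM.hsMul (hM.ortho U hU (fun k : S => k.1.2) hρ σ hσ (hL k.1 (hS k.1 k.2)).2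
        (hL k'.1 (hS k'.1 k'.2)).2 (k := k) (k' := k')) ((fixedDim k.1.2 F : ℝ) * fixedDim k'.1.2 F)
    refine h1.congr (fun v => (hgg v).symm) ?_
    rw [← Finset.sum_coe_sort S (fun p => (fixedDim p.2 F : ℝ) ^ 2)]
    refine Finset.sum_congr rfl fun k _ => ?_
    rw [Finset.sum_eq_single k]
    · rw [if_pos ⟨Representation.Equiv.refl _⟩]
      ring
    · intro k' _ hkk
      rw [if_neg, mul_zero]
      exact hS2 k.1 k.2 k'.1 k'.2 fun h => hkk (Subtype.ext h.symm)
    · intro hk'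
      exact absurd (Finset.mem_univ k) hk'
  have h2 := hs_same hσ hM F 0
  have e1 : (pairOrbits K F : ℝ) - 2 * 0 + 0 ^ 2 = pairOrbits K F := by ring
  rw [e1] at h2
  refine hmean.unique h2 fun v => ?_
  rw [hgf, Complex.norm_real, Real.norm_eq_abs, sq_abs]
  ring

theorem sqLe : SqLe K fun F => (pairOrbits K F : ℝ) := by
  intro F _ L hL hfix hm S h1 h2 h3
  exact (sum_sq_orbits F hL hfix hm h1 h2 h3).le

/-- limits along ultrafilters -/
theorem ulim {ι : Type} (U : Ultrafilter ι) {f : ι → ℝ} {C : ℝ} (h : ∀ᶠ i in (U : Filter ι), |f i| ≤ C) :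
    ∃ y, Tendsto f (U : Filter ι) (𝓝 y) := by
  have h1 : (U.map f : Filter ℝ) ≤ 𝓟 (Set.Icc (-C) C) := by
    rw [Ultrafilter.coe_map, Filter.le_principal_iff, Filter.mem_map]
    filter_upwards [h] with i hi using abs_le.1 hi
  obtain ⟨y, _, hy⟩ := (isCompact_Icc (a := -C) (b := C)).ultrafilter_le_nhds (U.map f) h1
  exact ⟨y, hy⟩

/-- **Bessel's inequality** for general means. -/
theorem rowsMn {ι : Type} {l : Filter ι} {E : ι → (HeightOneSpectrum (𝓞 K) → ℝ) → ℝ} (h : Mn l E)
    {κ : Type*} [Fintype κ] [DecidableEq κ] {T : HeightOneSpectrum (𝓞 K) → ℝ} {s : ℝ}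
    (hT : ∀ v, |T v| ≤ s) (w : κ → HeightOneSpectrum (𝓞 K) → ℝ) (g : κ → ℝ) (hg : ∀ k, 0 < g k)
    (hG : ∀ k k', Hs l E (fun v => w k v * w k' v) (if k = k' then g k else 0))
    (hw : ∀ k, Bd (w k)) (x : κ → ι → ℝ)
    (hx : ∀ k, Tendsto (fun i => E i (fun v => T v * w k v) - x k i) l (𝓝 0))
    {η : ℝ} (hη : 0 < η) : ∀ᶠ i in l, ∑ k, x k i ^ 2 / g k ≤ s ^ 2 + η := by
  classical
  by_contra hcon
  rw [Filter.not_eventually] at hcon
  set l' : Filter ι := l ⊓ 𝓟 {i | ¬ ∑ k, x k i ^ 2 / g k ≤ s ^ 2 + η} with hl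
  have hne : l'.NeBot := Filter.frequently_iff_neBot.1 hcon
  set U := Ultrafilter.of l' with hUd
  have hUl : (U : Filter ι) ≤ l' := Ultrafilter.of_le l'
  have hU : (U : Filter ι) ≤ l := hUl.trans inf_le_left
  have hU2 : ∀ᶠ i in (U : Filter ι), ¬ ∑ k, x k i ^ 2 / g k ≤ s ^ 2 + η := by
    have h1 : (U : Filter ι) ≤ 𝓟 {i | ¬ ∑ k, x k i ^ 2 / g k ≤ s ^ 2 + η} := hUl.trans inf_le_right
    exact h1 (mem_principal_self _)
  have hMU : Mn (U : Filter ι) E := mn_le h hU
  have hTb : Bd T := ⟨s, hT⟩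
  have hy : ∀ k, ∃ y : ℝ, Hs (U : Filter ι) E (fun v => T v * w k v) y := by
    intro k
    obtain ⟨B, hB⟩ := hTb.mul (hw k)
    obtain ⟨y, hy⟩ := ulim U (hMU.bound hB)
    exact ⟨y, ⟨B, hB⟩, hy⟩
  choose y hy using hy
  have hxy : ∀ k, Tendsto (x k) (U : Filter ι) (𝓝 (y k)) := by
    intro k
    have h1 := (hy k).2.sub ((hx k).mono_left hU)
    rw [sub_zero] at h1
    exact h1.congr fun i => by ring
  set Z : ℝ := ∑ k, y k ^ 2 / g k with hZ
  set R : HeightOneSpectrum (𝓞 K) → ℝ := fun v => ∑ k, y k / g k * w k v with hR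
  have hR2 : Hs (U : Filter ι) E (fun v => R v ^ 2) Z := by
    have h1 := hMU.hsSum Finset.univ fun k _ => hMU.hsSum Finset.univ fun k' _ =>
      hMU.hsMul (⟨(hG k k').1, (hG k k').2.mono_left hU⟩ : Hs (U : Filter ι) E _ _)
        (y k / g k * (y k' / g k'))
    refine h1.congr (fun v => ?_) ?_
    · rw [hR]
      simp only
      rw [sq, Finset.sum_mul_sum]
      refine Finset.sum_congr rfl fun k _ => Finset.sum_congr rfl fun k' _ => ?_
      ring
    · rw [hZ]
      refine Finset.sum_congr rfl fun k _ => ?_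
      rw [Finset.sum_eq_single k]
      · rw [if_pos rfl]
        have := (hg k).ne'
        field_simp
      · intro k' _ hkk
        rw [if_neg (Ne.symm hkk), mul_zero]
      · intro h
        exact absurd (Finset.mem_univ k) h
  have hTR : Hs (U : Filter ι) E (fun v => 2 * (T v * R v)) (2 * Z) := by
    have h1 := hMU.hsMul (hMU.hsSum Finset.univ fun k _ => hMU.hsMul (hy k) (y k / g k)) 2
    refine h1.congr (fun v => ?_) ?_
    · have e : ∑ k, y k / g k * (T v * w k v) = T v * R v := by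
        rw [hR]
        simp only
        rw [Finset.mul_sum]
        exact Finset.sum_congr rfl fun k _ => by ring
      rw [e]
    · have e : ∑ k, y k / g k * y k = Z := by
        rw [hZ]
        exact Finset.sum_congr rfl fun k _ => by ring
      rw [e]
  have hs : Hs (U : Filter ι) E (fun v => s ^ 2 * 1 + R v ^ 2) (s ^ 2 * 1 + Z) :=
    hMU.hsAdd (hMU.hsMul hMU.hsOne (s ^ 2)) hR2
  have h1 : 2 * Z ≤ s ^ 2 * 1 + Z := Hs.le hMU hTR hs fun v => by
    have h2 : T v ^ 2 ≤ s ^ 2 := sq_le_sq' (abs_le.1 (hT v)).1 (abs_le.1 (hT v)).2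
    nlinarith [sq_nonneg (T v - R v)]
  have hlim3 : Tendsto (fun i => ∑ k, x k i ^ 2 / g k) (U : Filter ι) (𝓝 Z) :=
    tendsto_finsetSum _ fun k _ => ((hxy k).pow 2).div_const _
  have h2 : s ^ 2 + η ≤ Z := ge_of_tendsto hlim3 (hU2.mono fun i hi => (not_le.1 hi).le)
  linarith

end

end Pool.Agent.T2H28.OD
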